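import Pool.Agent.Q161.ESF.Stm8

/-!
# CNT3: cubic polynomials without zeros, and with a simple zero, over a prime field
-/

set_option autoImplicit false

namespace Pool.Agent.Q195.ESF

open Finset Polynomial

section

variable {K : Type} [Field K] [Fintype K] [DecidableEq K]

/-- the zeros -/
def Zs (c : K × K) : Finset K := univ.filter fun x => x ^ 3 + c.1 * x + c.2 = 0

theorem mem_Zs (c : K × K) (x : K) : x ∈ Zs c ↔ x ^ 3 + c.1 * x + c.2 = 0 := by
  simp [Zs]

theorem card_Zs (c : K × K) : (Zs c).card ≤ 3 := by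
  have hd : (X ^ 3 + C c.1 * X + C c.2 : K[X]).natDegree = 3 := by compute_degree!
  have hne : (X ^ 3 + C c.1 * X + C c.2 : K[X]) ≠ 0 := by
    intro h
    rw [h] at hd
    simp at hd
  have hsub : Zs c ⊆ (X ^ 3 + C c.1 * X + C c.2 : K[X]).roots.toFinset := by
    intro x hx
    rw [Multiset.mem_toFinset, mem_roots hne]
    rw [mem_Zs] at hx
    simpa [IsRoot] using hx
  calc (Zs c).card ≤ _ := Finset.card_le_card hsub
    _ ≤ Multiset.card (X ^ 3 + C c.1 * X + C c.2 : K[X]).roots := Multiset.toFinset_card_le _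
    _ ≤ 3 := by
      have := card_roots' (X ^ 3 + C c.1 * X + C c.2 : K[X])
      rwa [hd] at this

theorem sum_Zs : ∑ c : K × K, (Zs c).card = Fintype.card K * Fintype.card K := by
  have h : ∀ c : K × K, (Zs c).card = ∑ x : K, if x ^ 3 + c.1 * x + c.2 = 0 then 1 else 0 := by
    intro c
    rw [Zs, Finset.card_filter]
  simp_rw [h]
  rw [Finset.sum_comm]
  have h2 : ∀ x : K, (∑ c : K × K, if x ^ 3 + c.1 * x + c.2 = 0 then 1 else 0) =
      Fintype.card K := by
    intro x
    rw [← Finset.card_filter, ← Finset.card_univ]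
    symm
    refine Finset.card_bij (fun a _ => (a, - x ^ 3 - a * x)) ?_ ?_ ?_
    · intro a _
      rw [Finset.mem_filter]
      exact ⟨Finset.mem_univ _, by ring⟩
    · intro a _ b _ hab
      exact (Prod.ext_iff.1 hab).1
    · rintro ⟨a, b⟩ hab
      rw [Finset.mem_filter] at hab
      refine ⟨a, Finset.mem_univ _, ?_⟩
      have := hab.2
      simp only at this
      refine Prod.ext rfl ?_
      simp only
      linear_combination - this
  rw [Finset.sum_congr rfl (fun x _ => h2 x), Finset.sum_const, Finset.card_univ, smul_eq_mul]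

theorem sum_off : ∑ c : K × K, (Zs c).offDiag.card = Fintype.card K * (Fintype.card K - 1) := by
  have h : ∀ c : K × K, (Zs c).offDiag.card = ∑ z : K × K, if z ∈ (Zs c).offDiag then 1 else 0 := by
    intro c
    rw [← Finset.card_filter]
    congr 1
    ext z
    simp
  simp_rw [h]
  rw [Finset.sum_comm]
  have h2 : ∀ z : K × K, (∑ c : K × K, if z ∈ (Zs c).offDiag then 1 else 0) =
      if z ∈ (univ : Finset K).offDiag then 1 else 0 := by
    rintro ⟨x, y⟩
    by_cases hxy : x = y
    · subst hxy
      simp [Finset.mem_offDiag]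
    · have h3 : (x, y) ∈ (univ : Finset K).offDiag := by simp [Finset.mem_offDiag, hxy]
      rw [if_pos h3, ← Finset.card_filter, Finset.card_eq_one]
      refine ⟨(-(x ^ 2 + x * y + y ^ 2), x * y * (x + y)), ?_⟩
      ext ⟨a, b⟩
      rw [Finset.mem_filter, Finset.mem_singleton, Finset.mem_offDiag, mem_Zs, mem_Zs]
      have hne : x - y ≠ 0 := sub_ne_zero.2 hxy
      constructor
      · rintro ⟨_, h4, h5, _⟩
        simp only at h4 h5
        have ha : a = -(x ^ 2 + x * y + y ^ 2) := by
          have : (x - y) * (a + (x ^ 2 + x * y + y ^ 2)) = 0 := by linear_combination h4 - h5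
          rcases mul_eq_zero.1 this with h6 | h6
          · exact absurd h6 hne
          · linear_combination h6
        refine Prod.ext ha ?_
        simp only
        subst ha
        linear_combination h4
      · intro h4
        obtain ⟨rfl, rfl⟩ := Prod.ext_iff.1 h4
        refine ⟨Finset.mem_univ _, ?_, ?_, hxy⟩
        · ring
        · ring
  rw [Finset.sum_congr rfl (fun x _ => h2 x), ← Finset.card_filter]
  have h6 : (univ.filter fun z : K × K => z ∈ (univ : Finset K).offDiag) =
      (univ : Finset K).offDiag := by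
    ext z
    simp
  rw [h6, Finset.offDiag_card, Finset.card_univ, Nat.mul_sub, mul_one]

theorem key (n : ℕ) (hn : n ≤ 3) : 3 + (n * n - n) ≤ 3 * (if n = 0 then 1 else 0) + 3 * n := by
  interval_cases n <;> simp

theorem count_none : Fintype.card K * (Fintype.card K - 1) ≤
    3 * (univ.filter fun c : K × K => ∀ x : K, x ^ 3 + c.1 * x + c.2 ≠ 0).card := by
  have h1 : ∑ c : K × K, (3 + (Zs c).offDiag.card) ≤
      ∑ c : K × K, (3 * (if (Zs c).card = 0 then 1 else 0) + 3 * (Zs c).card) := by
    apply Finset.sum_le_sum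
    intro c _
    rw [Finset.offDiag_card]
    exact key _ (card_Zs c)
  rw [Finset.sum_add_distrib, Finset.sum_add_distrib, sum_off, ← Finset.mul_sum, ← Finset.mul_sum,
    sum_Zs, ← Finset.card_filter, Finset.sum_const, Finset.card_univ, Fintype.card_prod,
    smul_eq_mul] at h1
  have h2 : (univ.filter fun c : K × K => (Zs c).card = 0) =
      univ.filter fun c : K × K => ∀ x : K, x ^ 3 + c.1 * x + c.2 ≠ 0 := by
    ext c
    simp only [Finset.mem_filter, Finset.mem_univ, true_and, Finset.card_eq_zero]
    rw [Finset.eq_empty_iff_forall_notMem]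
    simp only [mem_Zs]
  rw [h2] at h1
  omega

theorem count_simple : Fintype.card K * (Fintype.card K - 1) ≤
    3 * (univ.filter fun c : K × K => ∃ x : K, x ^ 3 + c.1 * x + c.2 = 0 ∧
      3 * x ^ 2 + c.1 ≠ 0).card := by
  have h1 : ∑ c : K × K, ((Zs c).filter fun x => 3 * x ^ 2 + c.1 ≠ 0).card =
      Fintype.card K * (Fintype.card K - 1) := by
    have h : ∀ c : K × K, ((Zs c).filter fun x => 3 * x ^ 2 + c.1 ≠ 0).card =
        ∑ x : K, if x ^ 3 + c.1 * x + c.2 = 0 ∧ 3 * x ^ 2 + c.1 ≠ 0 then 1 else 0 := by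
      intro c
      rw [← Finset.card_filter, Zs, Finset.filter_filter]
    simp_rw [h]
    rw [Finset.sum_comm]
    have h2 : ∀ x : K, (∑ c : K × K,
        if x ^ 3 + c.1 * x + c.2 = 0 ∧ 3 * x ^ 2 + c.1 ≠ 0 then 1 else 0) =
        Fintype.card K - 1 := by
      intro x
      rw [← Finset.card_filter, ← Finset.card_univ,
        ← Finset.card_erase_of_mem (Finset.mem_univ (-(3 * x ^ 2)))]
      symm
      refine Finset.card_bij (fun a _ => (a, - x ^ 3 - a * x)) ?_ ?_ ?_
      · intro a ha
        rw [Finset.mem_filter]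
        refine ⟨Finset.mem_univ _, by ring, ?_⟩
        intro h3
        apply (Finset.mem_erase.1 ha).1
        simp only at h3
        linear_combination h3
      · intro a _ b _ hab
        exact (Prod.ext_iff.1 hab).1
      · rintro ⟨a, b⟩ hab
        rw [Finset.mem_filter] at hab
        obtain ⟨_, h4, h5⟩ := hab
        simp only at h4 h5
        refine ⟨a, Finset.mem_erase.2 ⟨?_, Finset.mem_univ _⟩, ?_⟩
        · intro h6
          apply h5
          rw [h6]
          ring
        · refine Prod.ext rfl ?_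
          simp only
          linear_combination - h4
    rw [Finset.sum_congr rfl (fun x _ => h2 x), Finset.sum_const, Finset.card_univ, smul_eq_mul]
  rw [← h1, Finset.card_filter, Finset.mul_sum]
  apply Finset.sum_le_sum
  intro c _
  by_cases h2 : ∃ x : K, x ^ 3 + c.1 * x + c.2 = 0 ∧ 3 * x ^ 2 + c.1 ≠ 0
  · rw [if_pos h2, mul_one]
    exact (Finset.card_filter_le _ _).trans (card_Zs c)
  · rw [if_neg h2, mul_zero, Nat.le_zero, Finset.card_eq_zero, Finset.filter_eq_empty_iff]
    intro x hx h3
    rw [mem_Zs] at hx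
    exact h2 ⟨x, hx, h3⟩

end

theorem cnt3 : Pool.Agent.Q161.ESF.S_CNT3 := by
  intro p _ _
  classical
  have h1 := count_none (K := ZMod p)
  have h2 := count_simple (K := ZMod p)
  rw [ZMod.card] at h1 h2
  refine ⟨?_, ?_⟩
  · rw [Nat.card_eq_fintype_card, Fintype.card_subtype]
    exact h1
  · rw [Nat.card_eq_fintype_card, Fintype.card_subtype]
    exact h2

end Pool.Agent.Q195.ESF
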